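import Mathlib
import Pool.Agent.H32.Prom

namespace Pool.Agent.Results.MP_180e15_co.ChainMax
open Finset Classical Relation

variable {P : Type} [Fintype P] [PartialOrder P]

/-- The label in `{1, …, n}` of `x` under the labeling `L`. -/
def lab (L : P ≃ Fin (Fintype.card P)) (x : P) : ℕ := (L x : ℕ) + 1

/-- `y` is the `L`-successor of `x`: the element above `x` with the smallest label. -/
def IsSucc (L : P ≃ Fin (Fintype.card P)) (x y : P) : Prop :=
  x < y ∧ ∀ z, x < z → lab L y ≤ lab L z

/-- `x` lies on the promotion chain `v₁ = L⁻¹(1), v₂, …` of `L`. -/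
def OnChain (L : P ≃ Fin (Fintype.card P)) (x : P) : Prop :=
  ∃ v, lab L v = 1 ∧ ReflTransGen (IsSucc L) v x

/-- `M = ∂(L)`. -/
def IsProm (L M : P ≃ Fin (Fintype.card P)) : Prop :=
  ∀ x, (¬ OnChain L x → lab M x = lab L x - 1) ∧
    (OnChain L x → ∀ y, IsSucc L x y → lab M x = lab L y - 1) ∧
    (OnChain L x → IsMax x → lab M x = Fintype.card P)

/-- The degree of noninvertibility of extended promotion. -/
noncomputable def deg (P : Type) [Fintype P] [PartialOrder P] : ℚ :=
  (1 / (Fintype.card (P ≃ Fin (Fintype.card P)) : ℚ)) *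
    ∑ M : P ≃ Fin (Fintype.card P), (Set.ncard {L | IsProm L M} : ℚ) ^ 2

omit [PartialOrder P] in
lemma lab_inj (L : P ≃ Fin (Fintype.card P)) {x y : P} (h : lab L x = lab L y) : x = y :=
  L.injective (Fin.ext (by unfold lab at h; omega))

lemma succ_unique {L : P ≃ Fin (Fintype.card P)} {x y y' : P} (h : IsSucc L x y)
    (h' : IsSucc L x y') : y = y' :=
  lab_inj L (le_antisymm (h.2 _ h'.1) (h'.2 _ h.1))

lemma succ_exists (L : P ≃ Fin (Fintype.card P)) {x : P} (h : ¬ IsMax x) : ∃ y, IsSucc L x y := by
  obtain ⟨z, hz⟩ := not_isMax_iff.1 h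
  obtain ⟨y, hy, hm⟩ := exists_min_image (univ.filter (fun y => x < y)) (lab L)
    ⟨z, by simpa using hz⟩
  exact ⟨y, (mem_filter.1 hy).2, fun w hw => hm w (by simpa using hw)⟩

lemma rtg_le {L : P ≃ Fin (Fintype.card P)} {x y : P} (h : ReflTransGen (IsSucc L) x y) :
    x ≤ y := by
  induction h with
  | refl => exact le_rfl
  | tail _ h ih => exact ih.trans h.1.le

lemma total {L : P ≃ Fin (Fintype.card P)} {x y : P} (hx : OnChain L x) (hy : OnChain L y) :
    ReflTransGen (IsSucc L) x y ∨ ReflTransGen (IsSucc L) y x := by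
  obtain ⟨v, h1, h2⟩ := hx
  obtain ⟨w, h3, h4⟩ := hy
  have : v = w := lab_inj L (h1.trans h3.symm)
  subst this
  exact ReflTransGen.total_of_right_unique (fun _ _ _ a b => succ_unique a b) h2 h4

lemma on_succ {L : P ≃ Fin (Fintype.card P)} {x y : P} (hx : OnChain L x) (h : IsSucc L x y) :
    OnChain L y := by
  obtain ⟨v, h1, h2⟩ := hx
  exact ⟨v, h1, h2.tail h⟩

lemma imm {L : P ≃ Fin (Fintype.card P)} {x y z : P} (hx : OnChain L x) (hz : OnChain L z)
    (hxz : x < z) (h : IsSucc L x y) : y ≤ z := by
  rcases total hx hz with k | k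
  · rcases k.cases_head with e | ⟨c, h1, h2⟩
    · exact absurd e hxz.ne
    · rw [succ_unique h h1]; exact rtg_le h2
  · exact absurd (rtg_le k) hxz.not_ge

lemma bot_le {L : P ≃ Fin (Fintype.card P)} {v x : P} (hv : lab L v = 1) (hx : OnChain L x) :
    v ≤ x := by
  obtain ⟨w, h1, h2⟩ := hx
  rw [lab_inj L (hv.trans h1.symm)]
  exact rtg_le h2

lemma max_unique {L : P ≃ Fin (Fintype.card P)} {x y : P} (hx : OnChain L x) (hy : OnChain L y)
    (h : IsMax x) : y ≤ x := by
  rcases total hx hy with k | k
  · exact h (rtg_le k)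
  · exact rtg_le k

omit [PartialOrder P] in
lemma one_exists [Nonempty P] (L : P ≃ Fin (Fintype.card P)) : ∃ v, lab L v = 1 :=
  ⟨L.symm ⟨0, Fintype.card_pos⟩, by simp [lab]⟩

lemma top_exists [Nonempty P] (L : P ≃ Fin (Fintype.card P)) : ∃ t, OnChain L t ∧ IsMax t := by
  obtain ⟨v, hv⟩ := one_exists L
  obtain ⟨t, ht⟩ := (univ.filter (OnChain L)).exists_maximal
    ⟨v, mem_filter.2 ⟨mem_univ _, v, hv, ReflTransGen.refl⟩⟩
  have h1 : OnChain L t := (mem_filter.1 ht.1).2
  refine ⟨t, h1, ?_⟩
  by_contra h
  obtain ⟨y, hy⟩ := succ_exists L h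
  exact hy.1.not_ge (ht.2 (mem_filter.2 ⟨mem_univ _, on_succ h1 hy⟩) hy.1.le)

lemma prom_exists [Nonempty P] (L : P ≃ Fin (Fintype.card P)) : ∃! M, IsProm L M := by
  obtain ⟨v, hv⟩ := one_exists L
  have hvc : OnChain L v := ⟨v, hv, ReflTransGen.refl⟩
  have : ∀ x, ∃ y, (¬ OnChain L x → y = x) ∧ (OnChain L x → ¬ IsMax x → IsSucc L x y) ∧
      (OnChain L x → IsMax x → y = v) := by
    intro x
    by_cases h1 : OnChain L x
    · by_cases h2 : IsMax x
      · exact ⟨v, fun h => absurd h1 h, fun _ h => absurd h2 h, fun _ _ => rfl⟩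
      · obtain ⟨y, hy⟩ := succ_exists L h2
        exact ⟨y, fun h => absurd h1 h, fun _ _ => hy, fun _ h => absurd h h2⟩
    · exact ⟨x, fun _ => rfl, fun h => absurd h h1, fun h => absurd h h1⟩
  choose σ s1 s2 s3 using this
  have son : ∀ x, OnChain L x → OnChain L (σ x) := by
    intro x hx
    by_cases h : IsMax x
    · rw [s3 x hx h]; exact hvc
    · exact on_succ hx (s2 x hx h)
  have sne : ∀ x, OnChain L x → ¬ IsMax x → σ x ≠ v := fun x hx h e =>
    (s2 x hx h).1.not_ge (e ▸ bot_le hv hx)
  have sinj : Function.Injective σ := by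
    intro x y e
    by_cases hx : OnChain L x <;> by_cases hy : OnChain L y
    · by_cases mx : IsMax x <;> by_cases my : IsMax y
      · exact le_antisymm (max_unique hy hx my) (max_unique hx hy mx)
      · exact absurd (e.symm.trans (s3 x hx mx)) (sne y hy my)
      · exact absurd (e.trans (s3 y hy my)) (sne x hx mx)
      · by_contra hne
        rcases total hx hy with k | k
        · have := imm hx hy (lt_of_le_of_ne (rtg_le k) hne) (s2 x hx mx)
          exact (s2 y hy my).1.not_ge (e ▸ this)
        · have := imm hy hx (lt_of_le_of_ne (rtg_le k) (Ne.symm hne)) (s2 y hy my)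
          exact (s2 x hx mx).1.not_ge (e ▸ this)
    · have := son x hx
      rw [e, s1 y hy] at this
      exact absurd this hy
    · have := son y hy
      rw [← e, s1 x hx] at this
      exact absurd this hx
    · rwa [s1 x hx, s1 y hy] at e
  have hpos : 0 < Fintype.card P := Fintype.card_pos
  let g : P → Fin (Fintype.card P) := fun x =>
    ⟨if (L (σ x) : ℕ) = 0 then Fintype.card P - 1 else (L (σ x) : ℕ) - 1, by
      have := (L (σ x)).2
      split_ifs <;> omega⟩
  have ginj : Function.Injective g := by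
    intro x y e
    apply sinj
    apply L.injective
    have e' := congrArg Fin.val e
    simp only [g] at e'
    have := (L (σ x)).2
    have := (L (σ y)).2
    apply Fin.ext
    split_ifs at e' <;> omega
  have gbij : Function.Bijective g :=
    (Fintype.bijective_iff_injective_and_card g).2 ⟨ginj, by simp⟩
  have hg : ∀ x, σ x ≠ v → lab (Equiv.ofBijective g gbij) x = lab L (σ x) - 1 := by
    intro x hx
    have : (L (σ x) : ℕ) ≠ 0 := fun h => hx (lab_inj L (by rw [hv]; unfold lab; omega))
    simp only [lab, Equiv.ofBijective_apply, g, if_neg this]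
    omega
  refine ⟨Equiv.ofBijective g gbij, fun x => ⟨fun h => ?_, fun h y hy => ?_, fun h hm => ?_⟩, ?_⟩
  · rw [hg x (by rw [s1 x h]; rintro rfl; exact h hvc), s1 x h]
  · have hm : ¬ IsMax x := fun k => k.not_lt hy.1
    rw [hg x (sne x h hm), succ_unique (s2 x h hm) hy]
  · have : (L (σ x) : ℕ) = 0 := by
      rw [s3 x h hm]; unfold lab at hv; omega
    simp only [lab, Equiv.ofBijective_apply, g, if_pos this]
    omega
  · have uniq : ∀ M M', IsProm L M → IsProm L M' → M = M' := by
      intro M M' h h'
      ext x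
      have : lab M x = lab M' x := by
        by_cases hx : OnChain L x
        · by_cases mx : IsMax x
          · rw [(h x).2.2 hx mx, (h' x).2.2 hx mx]
          · rw [(h x).2.1 hx _ (s2 x hx mx), (h' x).2.1 hx _ (s2 x hx mx)]
        · rw [(h x).1 hx, (h' x).1 hx]
      unfold lab at this
      omega
    intro M hM
    refine uniq _ _ hM (fun x => ⟨fun h => ?_, fun h y hy => ?_, fun h hm => ?_⟩)
    · rw [hg x (by rw [s1 x h]; rintro rfl; exact h hvc), s1 x h]
    · have hm : ¬ IsMax x := fun k => k.not_lt hy.1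
      rw [hg x (sne x h hm), succ_unique (s2 x h hm) hy]
    · have : (L (σ x) : ℕ) = 0 := by
        rw [s3 x h hm]; unfold lab at hv; omega
      simp only [lab, Equiv.ofBijective_apply, g, if_pos this]
      omega

open Pool.Agent.H32.Prom in
lemma fiber [Nonempty P] (M : P ≃ Fin (Fintype.card P)) :
    Set.ncard {L | IsProm L M} ^ 2 ≤ ∑ t : P, (if ∀ y ∈ (univ : Finset P).erase t, M y < M t then
      c t univ M * c t univ M else 0) := by
  rcases Set.eq_empty_or_nonempty {L | IsProm L M} with he | ⟨L0, hL0⟩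
  · rw [he]; simp
  obtain ⟨t, ht0, htm⟩ := top_exists L0
  have htl : lab M t = Fintype.card P := (hL0 t).2.2 ht0 htm
  have hton : ∀ L, IsProm L M → OnChain L t := by
    intro L hL
    obtain ⟨t', h1, h2⟩ := top_exists L
    rw [lab_inj M (htl.trans ((hL t').2.2 h1 h2).symm)]
    exact h1
  have hpos : ∀ (L : P ≃ Fin (Fintype.card P)) x, 1 ≤ lab L x := fun L x => by unfold lab; omega
  have hcard : Set.ncard {L | IsProm L M} ≤ (ch t univ M).card := by
    rw [← Set.ncard_coe_finset]
    refine Set.ncard_le_ncard_of_injOn (fun L => univ.filter (fun x => OnChain L x ∧ x ≠ t))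
      ?_ ?_ (Set.toFinite _)
    · intro L hL
      have hL' : IsProm L M := hL
      simp only [ch, coe_filter, mem_powerset, subset_univ, true_and, Set.mem_ofPred_eq,
        mem_filter, mem_univ]
      refine ⟨fun x hx y hy _ => (total hx.1 hy.1).imp rtg_le rtg_le, fun z hz => ?_⟩
      have hzt : z < t := lt_of_le_of_ne (max_unique (hton L hL') hz.1 htm) hz.2
      refine ⟨hzt, fun y hy hyt => ?_⟩
      obtain ⟨s, hs⟩ := succ_exists L (x := z) (fun k => k.not_lt hzt)
      have e1 := (hL' z).2.1 hz.1 s hs
      have p1 := hpos L s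
      have : lab M z < lab M y := by
        by_cases hc : OnChain L y
        · have hy' : y < t := lt_of_le_of_ne (max_unique (hton L hL') hc htm) hyt
          obtain ⟨s', hs'⟩ := succ_exists L (x := y) (fun k => k.not_lt hy')
          have e2 := (hL' y).2.1 hc s' hs'
          have e3 := hs.2 s' (hy.trans hs'.1)
          have e4 : lab L s ≠ lab L s' := fun e =>
            hs'.1.not_ge (lab_inj L e ▸ imm hz.1 hc hy hs)
          omega
        · have e2 := (hL' y).1 hc
          have e3 := hs.2 y hy
          have e4 : lab L s ≠ lab L y := fun e => hc (lab_inj L e ▸ on_succ hz.1 hs)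
          omega
      unfold lab at this
      exact Fin.lt_def.2 (by omega)
    · intro L hL L' hL' e
      have h1 : IsProm L M := hL
      have h2 : IsProm L' M := hL'
      have hiff : ∀ x, OnChain L x ↔ OnChain L' x := by
        intro x
        by_cases hx : x = t
        · rw [hx]; exact iff_of_true (hton L h1) (hton L' h2)
        · have := congrArg (fun C => x ∈ C) e
          simpa [hx] using this
      have hon : ∀ x, OnChain L x → lab L x = lab L' x := by
        rintro x ⟨v, hv, hr⟩
        rcases hr.cases_tail with e' | ⟨w, hw, hs⟩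
        · subst e'
          obtain ⟨v', hv'⟩ := one_exists L'
          have c1 : OnChain L' v' := ⟨v', hv', ReflTransGen.refl⟩
          have c2 : OnChain L x := ⟨x, hv, ReflTransGen.refl⟩
          have : x = v' := le_antisymm (bot_le hv ((hiff _).2 c1)) (bot_le hv' ((hiff _).1 c2))
          rw [hv, this, hv']
        · have c1 : OnChain L w := ⟨v, hv, hw⟩
          have c2 := (hiff _).1 c1
          obtain ⟨y, hy⟩ := succ_exists L' (x := w) (fun k => k.not_lt hs.1)
          have : x = y := le_antisymm (imm c1 ((hiff _).2 (on_succ c2 hy)) hy.1 hs)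
            (imm c2 ((hiff _).1 (on_succ c1 hs)) hs.1 hy)
          subst this
          have e1 := (h1 w).2.1 c1 x hs
          have e2 := (h2 w).2.1 c2 x hy
          have := hpos L x
          have := hpos L' x
          omega
      ext x
      have : lab L x = lab L' x := by
        by_cases hx : OnChain L x
        · exact hon x hx
        · have e1 := (h1 x).1 hx
          have e2 := (h2 x).1 (fun k => hx ((hiff _).2 k))
          have := hpos L x
          have := hpos L' x
          omega
      unfold lab at this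
      omega
  refine le_trans ?_ (single_le_sum (f := fun t : P =>
    if ∀ y ∈ (univ : Finset P).erase t, M y < M t then c t univ M * c t univ M else 0)
    (fun _ _ => Nat.zero_le _) (mem_univ t))
  have hc : c t univ M = (ch t univ M).card := if_pos ⟨mem_univ _, htm⟩
  rw [if_pos, hc, sq]
  · exact Nat.mul_le_mul hcard hcard
  · intro y hy
    have h1 := (M y).2
    have h2 : lab M y ≠ lab M t := fun e => (mem_erase.1 hy).1 (lab_inj M e)
    unfold lab at htl h2
    exact Fin.lt_def.2 (by omega)

theorem result (P : Type) [Fintype P] [PartialOrder P] [Nonempty P] :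
    (∀ L : P ≃ Fin (Fintype.card P), ∃! M, IsProm L M) ∧
    deg P ≤ ((Fintype.card P : ℚ) + 2) * ((Fintype.card P : ℚ) + 1) / 6 := by
  refine ⟨prom_exists, ?_⟩
  have h1 := Pool.Agent.H32.Prom.final (P := P) (β := Fin (Fintype.card P))
  rw [sum_comm] at h1
  have h2 := le_trans (Nat.mul_le_mul_left 6 (sum_le_sum fun M _ => fiber M)) h1
  have hN : (0 : ℚ) < Fintype.card (P ≃ Fin (Fintype.card P)) := by
    have : Nonempty (P ≃ Fin (Fintype.card P)) := ⟨Fintype.equivFin P⟩
    exact_mod_cast Fintype.card_pos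
  have h3 : (6 : ℚ) * ∑ M : P ≃ Fin (Fintype.card P), (Set.ncard {L | IsProm L M} : ℚ) ^ 2 ≤
      ((Fintype.card P : ℚ) + 1) * ((Fintype.card P : ℚ) + 2) *
        Fintype.card (P ≃ Fin (Fintype.card P)) := by exact_mod_cast h2
  unfold deg
  rw [one_div, inv_mul_le_iff₀ hN]
  linarith

end Pool.Agent.Results.MP_180e15_co.ChainMax
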